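import Mathlib

set_option autoImplicit false

/-!
# MP_1d95a5_co: an affine-stress-free face of a simplicial 6-polytope without large missing faces

Let `P` be the direct sum of three triangles in `ℝ⁶ = ℝ² ⊕ ℝ² ⊕ ℝ²`, each with its centroid at the
origin. It is a simplicial 6-polytope whose missing faces are the three triangles (dimension `2`), and
`i = 3 ≤ 6 / 2`. In an affine 3-stress `λ` the value of `∂_u ∂_v ∂_w λ` depends only on the triangles
containing `u`, `v`, `w`; it changes sign when two of the triangles are exchanged, so it vanishes when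
`u`, `v`, `w` lie in three different triangles.
-/

open Finset Matrix MvPolynomial

namespace Pool.Agent.Results.MP_1d95a5_co.ThreeTriangles

section Definitions

variable {V : Type} [Fintype V] [DecidableEq V] {d : ℕ}

/-- `F` is the vertex set of a proper face of the polytope with the vertices `p v`: some linear
functional is constant on `F` and smaller outside `F`, and `F` is not the set of all vertices. -/
def IsFace (p : V → Fin d → ℝ) (F : Finset V) : Prop :=
  F ≠ univ ∧ ∃ (a : Fin d → ℝ) (c : ℝ), (∀ v ∈ F, a ⬝ᵥ p v = c) ∧ ∀ v, v ∉ F → a ⬝ᵥ p v < c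

/-- The points `p v` are the (distinct) vertices of a simplicial `d`-polytope in `ℝ^d`. -/
structure IsSimplicialPolytope (p : V → Fin d → ℝ) : Prop where
  injective : Function.Injective p
  vertex : ∀ v, IsFace p {v}
  full : affineSpan ℝ (Set.range p) = ⊤
  simplicial : ∀ F, IsFace p F → AffineIndependent ℝ (fun v : F => p v)

/-- `M` is a missing face of the boundary complex: it is not a face, but each proper subset is. -/
def IsMissing (p : V → Fin d → ℝ) (M : Finset V) : Prop :=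
  ¬ IsFace p M ∧ ∀ N, N ⊂ M → IsFace p N

/-- `f` is an affine `i`-stress: a homogeneous polynomial of degree `i` all of whose monomials are
supported on faces, with `∑ ∂f/∂x_v = 0` and `∑ (p v)_k ∂f/∂x_v = 0` for each coordinate `k`. -/
structure IsAffineStress (i : ℕ) (p : V → Fin d → ℝ) (f : MvPolynomial V ℝ) : Prop where
  homogeneous : f.IsHomogeneous i
  faces : ∀ m ∈ f.support, IsFace p m.support
  sum : ∑ v, pderiv v f = 0
  coord : ∀ k, ∑ v, C (p v k) * pderiv v f = 0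

/-- The monomial `x_F`, as an exponent vector. -/
noncomputable def xF (F : Finset V) : V →₀ ℕ := ∑ v ∈ F, Finsupp.single v 1

/-- No missing face has dimension `≥ d - i + 1`, that is, at least `d - i + 2` elements. -/
def NoLargeMissing (i : ℕ) (p : V → Fin d → ℝ) : Prop :=
  ∀ M, IsMissing p M → M.card < d - i + 2

end Definitions

/-- The assertion of Q1, with the affine stresses of Lee (all monomials supported on faces). -/
def Q1 : Prop :=
  ∀ (d i : ℕ), 2 ≤ i → 2 * i ≤ d → ∀ (V : Type) [Fintype V] [DecidableEq V] (p : V → Fin d → ℝ),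
    IsSimplicialPolytope p → NoLargeMissing i p → ∀ F, IsFace p F → F.card = i →
      ∃ f, IsAffineStress i p f ∧ f.coeff (xF F) ≠ 0

/-- The assertion of Q1 as written, where an affine `i`-stress is a linear combination of the
squarefree monomials `x_F`, `F` a face with `i` elements. -/
def Q1Squarefree : Prop :=
  ∀ (d i : ℕ), 2 ≤ i → 2 * i ≤ d → ∀ (V : Type) [Fintype V] [DecidableEq V] (p : V → Fin d → ℝ),
    IsSimplicialPolytope p → NoLargeMissing i p → ∀ F, IsFace p F → F.card = i →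
      ∃ f, IsAffineStress i p f ∧ (∀ m ∈ f.support, ∀ v, m v ≤ 1) ∧ f.coeff (xF F) ≠ 0

/-! ### The polytope -/

/-- The vertices of the direct sum of three triangles; the triangles are `{0,1,2}`, `{3,4,5}` and
`{6,7,8}`. -/
def pt : Fin 9 → Fin 6 → ℝ :=
  ![![1, 0, 0, 0, 0, 0], ![0, 1, 0, 0, 0, 0], ![-1, -1, 0, 0, 0, 0],
    ![0, 0, 1, 0, 0, 0], ![0, 0, 0, 1, 0, 0], ![0, 0, -1, -1, 0, 0],
    ![0, 0, 0, 0, 1, 0], ![0, 0, 0, 0, 0, 1], ![0, 0, 0, 0, -1, -1]]

theorem block (P Q R : Prop) (h : ¬ (P ∧ Q ∧ R)) :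
    ∃ s t : ℝ, (P → s = 1) ∧ (¬ P → s < 1) ∧ (Q → t = 1) ∧ (¬ Q → t < 1) ∧
      (R → - s - t = 1) ∧ (¬ R → - s - t < 1) := by
  by_cases hP : P <;> by_cases hQ : Q <;> by_cases hR : R
  · exact absurd ⟨hP, hQ, hR⟩ h
  · exact ⟨1, 1, by simp [hP, hQ, hR]; norm_num⟩
  · exact ⟨1, -2, by simp [hP, hQ, hR]; norm_num⟩
  · exact ⟨1, 0, by simp [hP, hQ, hR]⟩
  · exact ⟨-2, 1, by simp [hP, hQ, hR]; norm_num⟩
  · exact ⟨0, 1, by simp [hP, hQ, hR]⟩
  · exact ⟨-1, 0, by simp [hP, hQ, hR]⟩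
  · exact ⟨0, 0, by simp [hP, hQ, hR]⟩

/-- `F` contains none of the three triangles. -/
def Free (F : Finset (Fin 9)) : Prop :=
  ¬ (0 ∈ F ∧ 1 ∈ F ∧ 2 ∈ F) ∧ ¬ (3 ∈ F ∧ 4 ∈ F ∧ 5 ∈ F) ∧ ¬ (6 ∈ F ∧ 7 ∈ F ∧ 8 ∈ F)

theorem dots (a : Fin 6 → ℝ) :
    a ⬝ᵥ pt 0 = a 0 ∧ a ⬝ᵥ pt 1 = a 1 ∧ a ⬝ᵥ pt 2 = - a 0 - a 1 ∧
    a ⬝ᵥ pt 3 = a 2 ∧ a ⬝ᵥ pt 4 = a 3 ∧ a ⬝ᵥ pt 5 = - a 2 - a 3 ∧
    a ⬝ᵥ pt 6 = a 4 ∧ a ⬝ᵥ pt 7 = a 5 ∧ a ⬝ᵥ pt 8 = - a 4 - a 5 := by
  refine ⟨?_, ?_, ?_, ?_, ?_, ?_, ?_, ?_, ?_⟩ <;>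
    simp [pt, dotProduct, Fin.sum_univ_succ] <;> ring

theorem isFace_iff (F : Finset (Fin 9)) : IsFace pt F ↔ Free F := by
  constructor
  · rintro ⟨hne, a, c, h1, h2⟩
    obtain ⟨d0, d1, d2, d3, d4, d5, d6, d7, d8⟩ := dots a
    have hle : ∀ v, a ⬝ᵥ pt v ≤ c := by
      intro v
      by_cases hv : v ∈ F
      · exact (h1 v hv).le
      · exact (h2 v hv).le
    have hc : 0 ≤ c := by
      have e0 := hle 0
      have e1 := hle 1
      have e2 := hle 2
      linarith
    have key : c = 0 → False := by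
      intro h0
      apply hne
      rw [eq_univ_iff_forall]
      have l0 := hle 0
      have l1 := hle 1
      have l2 := hle 2
      have l3 := hle 3
      have l4 := hle 4
      have l5 := hle 5
      have l6 := hle 6
      have l7 := hle 7
      have l8 := hle 8
      have hall : ∀ v, a ⬝ᵥ pt v = 0 := by
        intro v
        fin_cases v <;> simp only [Fin.zero_eta, Fin.mk_one, Fin.reduceFinMk] <;> linarith
      intro v
      by_contra hv
      have := h2 v hv
      rw [hall v, h0] at this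
      exact lt_irrefl _ this
    refine ⟨?_, ?_, ?_⟩
    · rintro ⟨m0, m1, m2⟩
      apply key
      have e0 := h1 0 m0
      have e1 := h1 1 m1
      have e2 := h1 2 m2
      linarith
    · rintro ⟨m0, m1, m2⟩
      apply key
      have e0 := h1 3 m0
      have e1 := h1 4 m1
      have e2 := h1 5 m2
      linarith
    · rintro ⟨m0, m1, m2⟩
      apply key
      have e0 := h1 6 m0
      have e1 := h1 7 m1
      have e2 := h1 8 m2
      linarith
  · rintro ⟨f0, f1, f2⟩
    refine ⟨?_, ?_⟩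
    · rintro rfl
      exact f0 ⟨mem_univ _, mem_univ _, mem_univ _⟩
    obtain ⟨s0, t0, x1, x2, x3, x4, x5, x6⟩ := block _ _ _ f0
    obtain ⟨s1, t1, y1, y2, y3, y4, y5, y6⟩ := block _ _ _ f1
    obtain ⟨s2, t2, z1, z2, z3, z4, z5, z6⟩ := block _ _ _ f2
    obtain ⟨d0, d1, d2, d3, d4, d5, d6, d7, d8⟩ := dots ![s0, t0, s1, t1, s2, t2]
    refine ⟨![s0, t0, s1, t1, s2, t2], 1, ?_, ?_⟩
    · intro v hv
      fin_cases v
      · exact d0.trans (x1 hv)
      · exact d1.trans (x3 hv)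
      · exact d2.trans (x5 hv)
      · exact d3.trans (y1 hv)
      · exact d4.trans (y3 hv)
      · exact d5.trans (y5 hv)
      · exact d6.trans (z1 hv)
      · exact d7.trans (z3 hv)
      · exact d8.trans (z5 hv)
    · intro v hv
      fin_cases v
      · exact d0.trans_lt (x2 hv)
      · exact d1.trans_lt (x4 hv)
      · exact d2.trans_lt (x6 hv)
      · exact d3.trans_lt (y2 hv)
      · exact d4.trans_lt (y4 hv)
      · exact d5.trans_lt (y6 hv)
      · exact d6.trans_lt (z2 hv)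
      · exact d7.trans_lt (z4 hv)
      · exact d8.trans_lt (z6 hv)

theorem free_of_subset {F G : Finset (Fin 9)} (h : F ⊆ G) (hG : Free G) : Free F :=
  ⟨fun k => hG.1 ⟨h k.1, h k.2.1, h k.2.2⟩, fun k => hG.2.1 ⟨h k.1, h k.2.1, h k.2.2⟩,
    fun k => hG.2.2 ⟨h k.1, h k.2.1, h k.2.2⟩⟩

theorem missing_card (M : Finset (Fin 9)) (hM : IsMissing pt M) : M.card = 3 := by
  obtain ⟨h1, h2⟩ := hM
  rw [isFace_iff] at h1
  have key : ∀ T : Finset (Fin 9), T ⊆ M → ¬ Free T → T = M := by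
    intro T hT hf
    by_contra hne
    exact hf ((isFace_iff T).1 (h2 T (lt_of_le_of_ne hT hne)))
  have h3 : (0 ∈ M ∧ 1 ∈ M ∧ 2 ∈ M) ∨ (3 ∈ M ∧ 4 ∈ M ∧ 5 ∈ M) ∨ (6 ∈ M ∧ 7 ∈ M ∧ 8 ∈ M) := by
    unfold Free at h1
    tauto
  rcases h3 with ⟨a, b, c⟩ | ⟨a, b, c⟩ | ⟨a, b, c⟩
  · rw [← key {0, 1, 2} (by simp [insert_subset_iff, a, b, c]) (by simp [Free])]; rfl
  · rw [← key {3, 4, 5} (by simp [insert_subset_iff, a, b, c]) (by simp [Free])]; rfl
  · rw [← key {6, 7, 8} (by simp [insert_subset_iff, a, b, c]) (by simp [Free])]; rfl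

theorem full_dim : affineSpan ℝ (Set.range pt) = ⊤ := by
  rw [AffineSubspace.affineSpan_eq_top_iff_vectorSpan_eq_top_of_nonempty ℝ (Fin 6 → ℝ) (Fin 6 → ℝ)
    (Set.range_nonempty pt), eq_top_iff]
  intro x _
  have hm : ∀ u v, pt u - pt v ∈ vectorSpan ℝ (Set.range pt) := fun u v =>
    vsub_mem_vectorSpan ℝ (Set.mem_range_self u) (Set.mem_range_self v)
  have hx : x = ((2 * x 0 - x 1) / 3) • (pt 0 - pt 2) + ((2 * x 1 - x 0) / 3) • (pt 1 - pt 2)
      + ((2 * x 2 - x 3) / 3) • (pt 3 - pt 5) + ((2 * x 3 - x 2) / 3) • (pt 4 - pt 5)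
      + ((2 * x 4 - x 5) / 3) • (pt 6 - pt 8) + ((2 * x 5 - x 4) / 3) • (pt 7 - pt 8) := by
    funext k
    fin_cases k <;> simp [pt] <;> ring
  rw [hx]
  exact Submodule.add_mem _ (Submodule.add_mem _ (Submodule.add_mem _ (Submodule.add_mem _
    (Submodule.add_mem _ (Submodule.smul_mem _ _ (hm _ _)) (Submodule.smul_mem _ _ (hm _ _)))
    (Submodule.smul_mem _ _ (hm _ _))) (Submodule.smul_mem _ _ (hm _ _)))
    (Submodule.smul_mem _ _ (hm _ _))) (Submodule.smul_mem _ _ (hm _ _))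

/-- A linear relation between the points outside which some vertex of each triangle vanishes. -/
theorem relation (w : Fin 9 → ℝ) (hw : ∑ v, w v • pt v = 0) :
    w 0 = w 2 ∧ w 1 = w 2 ∧ w 3 = w 5 ∧ w 4 = w 5 ∧ w 6 = w 8 ∧ w 7 = w 8 := by
  have h : ∀ k, ∑ v, w v * pt v k = 0 := by
    intro k
    have := congrFun hw k
    simpa [Finset.sum_apply] using this
  have h0 := h 0
  have h1 := h 1
  have h2 := h 2
  have h3 := h 3
  have h4 := h 4
  have h5 := h 5
  simp [pt, Fin.sum_univ_succ] at h0 h1 h2 h3 h4 h5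
  refine ⟨?_, ?_, ?_, ?_, ?_, ?_⟩
  all_goals linarith

theorem affineIndep (F : Finset (Fin 9)) (hF : Free F) :
    AffineIndependent ℝ (fun v : F => pt v) := by
  rw [affineIndependent_iff]
  intro s w _ hs
  -- extend the weights by zero
  let w' : Fin 9 → ℝ := fun v => if h : v ∈ F then (if (⟨v, h⟩ : F) ∈ s then w ⟨v, h⟩ else 0) else 0
  have hin : ∀ v : F, v ∈ s → w' v = w v := by
    intro v hv
    simp only [w']
    rw [dif_pos v.2, if_pos hv]
  have hout : ∀ v : Fin 9, v ∉ F → w' v = 0 := fun v hv => dif_neg hv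
  have hw' : ∑ v, w' v • pt v = 0 := by
    have h1 : ∑ v, w' v • pt v = ∑ v ∈ F, w' v • pt v := by
      symm
      apply sum_subset (subset_univ _)
      intro v _ hv
      rw [hout v hv, zero_smul]
    rw [h1, ← sum_coe_sort F (fun v => w' v • pt v)]
    have h2 : ∑ v : F, w' v • pt v = ∑ v ∈ s, w' v • pt v := by
      symm
      apply sum_subset (subset_univ _)
      intro v _ hv
      have : w' v = 0 := by
        simp only [w']
        rw [dif_pos v.2, if_neg hv]
      rw [this, zero_smul]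
    rw [h2, ← hs]
    exact sum_congr rfl fun v hv => by rw [hin v hv]
  obtain ⟨e0, e1, e3, e4, e6, e7⟩ := relation w' hw'
  have hz : ∀ v, w' v = 0 := by
    have a0 : w' 2 = 0 := by
      by_contra h
      apply hF.1
      refine ⟨?_, ?_, ?_⟩ <;> by_contra hn
      · exact h (e0 ▸ hout _ hn)
      · exact h (e1 ▸ hout _ hn)
      · exact h (hout _ hn)
    have a1 : w' 5 = 0 := by
      by_contra h
      apply hF.2.1
      refine ⟨?_, ?_, ?_⟩ <;> by_contra hn
      · exact h (e3 ▸ hout _ hn)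
      · exact h (e4 ▸ hout _ hn)
      · exact h (hout _ hn)
    have a2 : w' 8 = 0 := by
      by_contra h
      apply hF.2.2
      refine ⟨?_, ?_, ?_⟩ <;> by_contra hn
      · exact h (e6 ▸ hout _ hn)
      · exact h (e7 ▸ hout _ hn)
      · exact h (hout _ hn)
    intro v
    fin_cases v
    · exact e0.trans a0
    · exact e1.trans a0
    · exact a0
    · exact e3.trans a1
    · exact e4.trans a1
    · exact a1
    · exact e6.trans a2
    · exact e7.trans a2
    · exact a2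
  intro v hv
  rw [← hin v hv]
  exact hz v

theorem simplicial0 : IsSimplicialPolytope pt := by
  refine ⟨?_, ?_, full_dim, fun F hF => affineIndep F ((isFace_iff F).1 hF)⟩
  · intro u v h
    have hh : ∀ k, pt u k = pt v k := fun k => congrFun h k
    have h0 := hh 0
    have h1 := hh 1
    have h2 := hh 2
    have h3 := hh 3
    have h4 := hh 4
    have h5 := hh 5
    fin_cases u <;> fin_cases v <;> first | rfl | (exfalso; simp [pt] at h0 h1 h2 h3 h4 h5)
  · intro v
    rw [isFace_iff]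
    fin_cases v <;> simp [Free]

/-! ### The stresses -/

/-- The conditions on the coefficients of an affine stress. -/
theorem coeff_cond {i : ℕ} {f : MvPolynomial (Fin 9) ℝ} (hf : IsAffineStress i pt f)
    (n : Fin 9 →₀ ℕ) (D : Fin 9 → ℝ)
    (hD : ∀ v, D v = f.coeff (n + Finsupp.single v 1) * (n v + 1)) :
    D 0 = D 2 ∧ D 1 = D 2 ∧ D 3 = D 5 ∧ D 4 = D 5 ∧ D 6 = D 8 ∧ D 7 = D 8 ∧
      D 2 + D 5 + D 8 = 0 := by
  have hs : ∑ v, D v = 0 := by
    have := congrArg (coeff n) hf.sum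
    rw [coeff_sum, coeff_zero] at this
    rw [← this]
    exact sum_congr rfl fun v _ => by rw [coeff_pderiv, hD]
  have hk : ∑ v, D v • pt v = 0 := by
    funext k
    have := congrArg (coeff n) (hf.coord k)
    rw [coeff_sum, coeff_zero] at this
    rw [Finset.sum_apply, Pi.zero_apply, ← this]
    exact sum_congr rfl fun v _ => by rw [coeff_C_mul, coeff_pderiv, hD, Pi.smul_apply,
      smul_eq_mul, mul_comm]
  obtain ⟨e0, e1, e3, e4, e6, e7⟩ := relation D hk
  refine ⟨e0, e1, e3, e4, e6, e7, ?_⟩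
  simp only [Fin.sum_univ_succ] at hs
  simp at hs
  linarith

/-- The coefficient of `x_a x_b x_c`. -/
noncomputable def m3 (f : MvPolynomial (Fin 9) ℝ) (a b c : Fin 9) : ℝ :=
  f.coeff (Finsupp.single a 1 + Finsupp.single b 1 + Finsupp.single c 1)

theorem m3_swap (f : MvPolynomial (Fin 9) ℝ) (a b c : Fin 9) : m3 f a b c = m3 f a c b := by
  unfold m3
  rw [add_right_comm]

theorem m3_swap' (f : MvPolynomial (Fin 9) ℝ) (a b c : Fin 9) : m3 f a b c = m3 f b a c := by
  unfold m3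
  rw [add_comm (Finsupp.single a 1)]

theorem pairRel {i : ℕ} {f : MvPolynomial (Fin 9) ℝ} (hf : IsAffineStress i pt f) (a b : Fin 9)
    {x y z : Fin 9} (hx : x = 0 ∨ x = 1 ∨ x = 2) (hy : y = 3 ∨ y = 4 ∨ y = 5)
    (hz : z = 6 ∨ z = 7 ∨ z = 8) (h : x ≠ a ∧ x ≠ b ∧ y ≠ a ∧ y ≠ b ∧ z ≠ a ∧ z ≠ b) :
    m3 f a b x + m3 f a b y + m3 f a b z = 0 := by
  obtain ⟨h1, h2, h3, h4, h5, h6⟩ := h
  obtain ⟨D, hD⟩ : ∃ D : Fin 9 → ℝ, ∀ v,
      D v = f.coeff (Finsupp.single a 1 + Finsupp.single b 1 + Finsupp.single v 1) *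
        (((Finsupp.single a 1 + Finsupp.single b 1 : Fin 9 →₀ ℕ) v : ℝ) + 1) :=
    ⟨_, fun _ => rfl⟩
  have key := coeff_cond hf (Finsupp.single a 1 + Finsupp.single b 1) D hD
  have hval : ∀ v, v ≠ a → v ≠ b → D v = m3 f a b v := by
    intro v ha hb
    rw [hD]
    simp [m3, ha.symm, hb.symm]
  obtain ⟨e0, e1, e3, e4, e6, e7, es⟩ := key
  rw [← hval x h1 h2, ← hval y h3 h4, ← hval z h5 h6]
  rcases hx with rfl | rfl | rfl <;> rcases hy with rfl | rfl | rfl <;>
    rcases hz with rfl | rfl | rfl <;> linarith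

theorem m3_triangle {f : MvPolynomial (Fin 9) ℝ} {i : ℕ} (hf : IsAffineStress i pt f)
    (a b c : Fin 9) (h : ¬ Free {a, b, c}) : m3 f a b c = 0 := by
  by_contra hn
  have h1 := hf.faces _ (mem_support_iff.2 hn)
  rw [isFace_iff] at h1
  apply h
  refine free_of_subset ?_ h1
  intro v hv
  rw [Finsupp.mem_support_iff]
  simp only [mem_insert, mem_singleton] at hv
  rcases hv with rfl | rfl | rfl <;> simp [Finsupp.add_apply]

theorem stress_zero {i : ℕ} {f : MvPolynomial (Fin 9) ℝ} (hf : IsAffineStress i pt f) :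
    m3 f 0 3 6 = 0 := by
  have t1 := m3_triangle hf 0 1 2 (by simp [Free])
  have t2 := m3_triangle hf 3 4 5 (by simp [Free])
  have t3 := m3_triangle hf 6 7 8 (by simp [Free])
  have r1 := pairRel hf 0 1 (x := 2) (y := 3) (z := 6) (by simp) (by simp) (by simp) (by decide)
  have r2 := pairRel hf 3 4 (x := 0) (y := 5) (z := 6) (by simp) (by simp) (by simp) (by decide)
  have r3 := pairRel hf 6 7 (x := 0) (y := 3) (z := 8) (by simp) (by simp) (by simp) (by decide)
  have r4 := pairRel hf 0 3 (x := 1) (y := 4) (z := 6) (by simp) (by simp) (by simp) (by decide)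
  have r5 := pairRel hf 0 6 (x := 1) (y := 3) (z := 7) (by simp) (by simp) (by simp) (by decide)
  have r6 := pairRel hf 3 6 (x := 0) (y := 4) (z := 7) (by simp) (by simp) (by simp) (by decide)
  have s1 : m3 f 0 3 1 = m3 f 0 1 3 := m3_swap _ _ _ _
  have s2 : m3 f 0 3 4 = m3 f 3 4 0 := by rw [m3_swap', m3_swap]
  have s3 : m3 f 0 6 1 = m3 f 0 1 6 := m3_swap _ _ _ _
  have s4 : m3 f 0 6 3 = m3 f 0 3 6 := m3_swap _ _ _ _
  have s5 : m3 f 0 6 7 = m3 f 6 7 0 := by rw [m3_swap', m3_swap]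
  have s6 : m3 f 3 6 0 = m3 f 0 3 6 := by rw [m3_swap, m3_swap']
  have s7 : m3 f 3 6 4 = m3 f 3 4 6 := m3_swap _ _ _ _
  have s8 : m3 f 3 6 7 = m3 f 6 7 3 := by rw [m3_swap', m3_swap]
  linarith

theorem xF0 : xF ({0, 3, 6} : Finset (Fin 9)) =
    Finsupp.single 0 1 + Finsupp.single 3 1 + Finsupp.single 6 1 := by
  unfold xF
  rw [sum_insert (by decide), sum_insert (by decide), sum_singleton, add_assoc]

/-- **The answer to Q1 of MP_1d95a5_co is no.** The direct sum `P` of three triangles in `ℝ⁶` is a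
simplicial 6-polytope all of whose missing faces are 2-dimensional, `{0, 3, 6}` is a face with three
elements, and the coefficient of `x_0 x_3 x_6` is zero in every affine 3-stress on `P`. So the
assertion of Q1 fails (with `d = 6`, `i = 3`), both for the affine stresses of Lee and for the smaller
spaces of squarefree affine stresses. -/
theorem result :
    (IsSimplicialPolytope pt ∧ (∀ M, IsMissing pt M → M.card = 3) ∧
      IsFace pt {0, 3, 6} ∧
      ∀ f, IsAffineStress 3 pt f → f.coeff (xF {0, 3, 6}) = 0) ∧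
    ¬ Q1 ∧ ¬ Q1Squarefree := by
  have hface : IsFace pt {0, 3, 6} := by
    rw [isFace_iff]
    simp [Free]
  have hz : ∀ f, IsAffineStress 3 pt f → f.coeff (xF {0, 3, 6}) = 0 := by
    intro f hf
    rw [xF0]
    exact stress_zero hf
  have hm : NoLargeMissing 3 pt := fun M hM => by rw [missing_card M hM]; norm_num
  refine ⟨⟨simplicial0, missing_card, hface, hz⟩, ?_, ?_⟩
  · intro h
    obtain ⟨f, hf, hc⟩ := h 6 3 (by norm_num) (by norm_num) (Fin 9) pt simplicial0 hm {0, 3, 6}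
      hface rfl
    exact hc (hz f hf)
  · intro h
    obtain ⟨f, hf, -, hc⟩ := h 6 3 (by norm_num) (by norm_num) (Fin 9) pt simplicial0 hm {0, 3, 6}
      hface rfl
    exact hc (hz f hf)

end Pool.Agent.Results.MP_1d95a5_co.ThreeTriangles
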